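import Pool.Agent.W92.ET.Base2

/-! Project ET: subtask ET2-MAIN. -/

set_option autoImplicit false

namespace Pool.Agent.W270.ET

open Pool.Agent.W92.ET

theorem beteq (h4 : S_EE) : bet ^ 2 * EE ≤ 3 := by
  unfold S_EE at h4
  rw [h4]
  unfold bet
  have hpi : Real.pi ≠ 0 := Real.pi_ne_zero
  have : (34675 / 10000 / Real.pi) ^ 2 * (Real.pi ^ 2 * (306589 / 1228800))
      = (34675 / 10000) ^ 2 * (306589 / 1228800) := by
    field_simp
  rw [this]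
  norm_num

theorem harm (N : ℕ) : ∑ d ∈ Finset.Icc 1 N, 1 / (d : ℝ) ≤ 1 + Real.log N := by
  have h := harmonic_le_one_add_log N
  rw [harmonic_eq_sum_Icc] at h
  push_cast at h
  simpa [one_div] using h

theorem harm0 (N : ℕ) : 0 ≤ ∑ d ∈ Finset.Icc 1 N, 1 / (d : ℝ) :=
  Finset.sum_nonneg (fun i _ => by positivity)

theorem main2 (h1 : S_energy) (h2 : S_quad) (h3 : S_first) (h4 : S_EE) (h5 : S_recip2)
    (h6 : S_count2) : S_main2 := by
  obtain ⟨g, Cf, hg, hf⟩ := h3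
  refine ⟨g, hg, ?_⟩
  intro A n₀ K h0 hA
  obtain ⟨C', hC'⟩ := h5 A n₀ K (fun n hn => (hA n hn).2)
  obtain ⟨C1, hC1⟩ := h6 A n₀ K h0 hA C' hC'
  refine ⟨g * C1 + C1 + 3 + |Cf| * C', ?_⟩
  intro N hN
  obtain ⟨q1, q2⟩ := hC1 N hN
  have hmem : ∀ a ∈ tr A N, 1 ≤ a ∧ a ≤ N := by
    intro a ha
    classical
    unfold tr at ha
    simp only [Finset.mem_filter, Finset.mem_Icc] at ha
    exact ha.1
  have e1 := h1 (tr A N) N hmem bet
  have e2 := h2 (tr A N) N hmem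
  have e3 := hf (tr A N) (fun a ha => (hmem a ha).1)
  have hb := beteq h4
  have hh := harm N
  have hh0 := harm0 N
  have hbh : bet ^ 2 * EE * ∑ d ∈ Finset.Icc 1 N, 1 / (d : ℝ) ≤ 3 + 3 * Real.log N := by
    calc bet ^ 2 * EE * ∑ d ∈ Finset.Icc 1 N, 1 / (d : ℝ)
        ≤ 3 * ∑ d ∈ Finset.Icc 1 N, 1 / (d : ℝ) := mul_le_mul_of_nonneg_right hb hh0
      _ ≤ 3 * (1 + Real.log N) := by linarith
      _ = 3 + 3 * Real.log N := by ring
  have hsplit : ∑ x ∈ Pr (tr A N), 1 / ((x.1 : ℝ) + x.2) *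
      (GG ((((x.2 : ℝ) - x.1) / (x.1 + x.2)) ^ 2) 0 + 3)
      = ∑ x ∈ Pr (tr A N), 1 / ((x.1 : ℝ) + x.2) *
        GG ((((x.2 : ℝ) - x.1) / (x.1 + x.2)) ^ 2) 0 + 3 * RR (tr A N) := by
    unfold RR
    rw [Finset.mul_sum, ← Finset.sum_add_distrib]
    refine Finset.sum_congr rfl (fun x _ => ?_)
    ring
  have hrec0 : 0 ≤ ∑ a ∈ tr A N, 1 / (a : ℝ) := Finset.sum_nonneg (fun i _ => by positivity)
  have hrec : Cf * ∑ a ∈ tr A N, 1 / (a : ℝ) ≤ |Cf| * C' :=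
    calc Cf * ∑ a ∈ tr A N, 1 / (a : ℝ)
        ≤ |Cf| * ∑ a ∈ tr A N, 1 / (a : ℝ) :=
          mul_le_mul_of_nonneg_right (le_abs_self _) hrec0
      _ ≤ |Cf| * C' := mul_le_mul_of_nonneg_left (hC' N) (abs_nonneg _)
  have hgR : g * (Real.log N - C1) ≤ g * RR (tr A N) := mul_le_mul_of_nonneg_left q2 hg.le
  rw [hsplit] at e3
  have : g * (Real.log N - C1) = g * Real.log N - g * C1 := by ring
  linarith

end Pool.Agent.W270.ET
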